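import Mathlib
import Pool.Agent.Y587.PRFamily

/-!
# A subset of a singular cardinal of uncountable cofinality which adds many reals

Let `#K` be a measurable cardinal and let `#L > #K` be a singular cardinal of cofinality `#K`. The
product of Prikry forcing on `K` and Cohen forcing preserves all cardinals, and its generic
object, coded as a subset `A` of `L`, computes more than `#L` reals from functions `K → L` of the
ground model.
-/

set_option autoImplicit false

namespace Pool.Agent.Y587.PR

open Cardinal Ordinal Pool.Agent.Helper669.Forcing Pool.Agent.W872.CC Pool.Agent.Y587.CB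

theorem exists_L {K : Type} {U : Ultrafilter K} (hU : Measure U) :
    ∃ L : Type, (#L).ord.cof = #K ∧ #K < #L := by
  have h0 : Order.IsSuccLimit (#K).ord := isSuccLimit_ord hU.unc.le
  have hne : (#K).ord ≠ 0 := by
    intro h
    rw [h] at h0
    exact Order.not_isSuccLimit_bot h0
  refine ⟨(ℵ_ ((#K).ord + (#K).ord)).out, ?_, ?_⟩
  · rw [mk_out, ord_aleph, cof_omega (isSuccLimit_add _ h0), cof_add _ hne]
    exact le_antisymm (cof_ord_le _) hU.le_cof
  · rw [mk_out]
    refine (le_aleph_ord _).trans_lt (aleph_lt_aleph.2 ?_)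
    exact lt_add_of_pos_right _ (bot_lt_iff_ne_bot.2 hne)

theorem exists_equiv {K L : Type} (hK : ℵ₀ < #K) (hKL : #K < #L) :
    Nonempty ((ℕ × K) ⊕ (ℕ × L) ≃ L) := by
  have hL : ℵ₀ ≤ #L := (hK.trans hKL).le
  rw [← Cardinal.eq, mk_sum, mk_prod, mk_prod, mk_nat]
  simp only [Cardinal.lift_id]
  rw [mul_eq_right hK.le hK.le aleph0_ne_zero, mul_eq_right hL hL aleph0_ne_zero]
  exact add_eq_right hL hKL.le

end Pool.Agent.Y587.PR

open Cardinal Pool.Agent.Helper669.Forcing Pool.Agent.W872.CC Pool.Agent.Y587.CB
  Pool.Agent.Y587.PR in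
/-- Let `U` be a nonprincipal ultrafilter on an uncountable set `K` which is closed under
intersections of fewer than `#K` sets. There are singular cardinals `#L > #K` of cofinality `#K`,
and for each of them all conditions of the product of Prikry forcing and Cohen forcing force that
all uncountable cardinals are preserved, and that the reals computed from the generic subset
`genSub U e` of `L` and the functions `F i`, for `i` in a set of cardinality `(#L)⁺`, are pairwise
distinct. -/
theorem Pool.Agent.Results.MP_fa650a_lc.ManyReals.result {K : Type} (U : Ultrafilter K)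
    (hU : Measure U) :
    (∃ L : Type, (#L).ord.cof = #K ∧ #K < #L) ∧
    ∀ L : Type, (#L).ord.cof = #K → #K < #L →
      ℵ₀ < (#L).ord.cof ∧ (#L).ord.cof < #L ∧
      ∃ (e : (ℕ × K) ⊕ (ℕ × L) ≃ L) (F : (Order.succ #L).out → K → L), ∀ p : Cond U L,
        p ∈ CardinalsPreserved.{0, 0} (Cond U L) ∧
        ∀ i j, i ≠ j →
          p ∈ fnot (SameSet (real e (genSub U e) (F i)) (real e (genSub U e) (F j))) := by
  refine ⟨exists_L hU, fun L hcof hlt => ⟨by rw [hcof]; exact hU.unc, by rw [hcof]; exact hlt, ?_⟩⟩
  obtain ⟨e⟩ := exists_equiv hU.unc hlt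
  obtain ⟨F, hF⟩ := exists_family hU hcof
  exact ⟨e, F, fun p => ⟨mem_CardinalsPreserved hU p, fun i j hij q _ => real_ne e (hF i j hij) q⟩⟩
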